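import Mathlib

/-!
A certificate checker: no set of at most `6` edges destroys all the dominating sets of a table.
-/

set_option autoImplicit false

namespace Pool.Agent.HLead.Bond

/-- A dominating set `D` (bit mask of vertices): `s1` is the mask of the edges which are the only
edge from `D` to some vertex outside of `D`, and `qs` contains for every other vertex outside of
`D` the mask of its edges to `D`. -/
structure DD where
  D : ℕ
  s1 : ℕ
  qs : List ℕ

inductive BT where
  | leaf (d : DD) : BT
  | node (l r : BT) : BT

def BT.get : BT → ℕ → DD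
  | .leaf d, _ => d
  | .node l r, i => match Nat.beq (Nat.mod i 2) 0 with
    | true => l.get (Nat.div i 2)
    | false => r.get (Nat.div i 2)

def BT.all (P : DD → Bool) : BT → Bool
  | .leaf d => P d
  | .node l r => l.all P && r.all P

theorem BT.all_get (P : DD → Bool) (t : BT) (h : t.all P = true) (i : ℕ) :
    P (t.get i) = true := by
  induction t generalizing i with
  | leaf d => exact h
  | node l r ihl ihr =>
    simp only [BT.all, Bool.and_eq_true] at h
    unfold BT.get
    split
    · exact ihl h.1 _
    · exact ihr h.2 _

/-- `q` without `X`. -/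
def rest (q X : ℕ) : ℕ := Nat.xor q (Nat.land q X)

/-- `z` without its lowest bit. -/
def clr (z : ℕ) : ℕ := Nat.land z (Nat.sub z 1)

/-- number of bits of `z`, at most `n` -/
def cnt : ℕ → ℕ → ℕ
  | 0, _ => 0
  | n + 1, z => match Nat.beq z 0 with
    | true => 0
    | false => Nat.succ (cnt n (clr z))

def evQ (X : ℕ) : List ℕ → ℕ → Option ℕ
  | [], acc => some acc
  | q :: qs, acc => match Nat.beq (rest q X) 0 with
    | true => none
    | false => match Nat.beq (clr (rest q X)) 0 with
      | true => evQ X qs (Nat.lor (rest q X) acc)
      | false => evQ X qs acc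

/-- `none` if `X` destroys `d`, otherwise the mask of the edges which destroy `d` together
with `X`. -/
def ev (d : DD) (X : ℕ) : Option ℕ :=
  match Nat.beq (Nat.land d.s1 X) 0 with
  | true => evQ X d.qs d.s1
  | false => none

/-- The certificate: a list of numbers which contain digits in base `512`, each with a
leading digit `1`. -/
inductive St where
  | mk (c : ℕ) (r : List ℕ) : St

def next (s : St) (f : ℕ → St → Option St) : Option St :=
  match s with
  | .mk c r => match Nat.beq c 1 with
    | false => f (Nat.mod c 512) (.mk (Nat.div c 512) r)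
    | true => match r with
      | [] => none
      | c' :: r' => f (Nat.mod c' 512) (.mk (Nat.div c' 512) r')

abbrev Fn := ℕ → ℕ → St → Option St

def lev0 (tab : BT) : Fn := fun X _ s =>
  next s fun i s' => match ev (tab.get i) X with
    | none => none
    | some _ => some s'

def one (tab : BT) (X : ℕ) : ℕ → ℕ → St → Option St
  | 0, _, _ => none
  | n + 1, I, s => match Nat.beq I 0 with
    | true => some s
    | false => next s fun i s' => match ev (tab.get i) X with
      | none => none
      | some k => one tab X n (Nat.land I k) s'

def lev1 (tab : BT) : Fn := fun X F s =>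
  next s fun i s' => match ev (tab.get i) X with
    | none => none
    | some k => one tab X 80 (rest k F) s'

/-- Loop over the bits of `z`; `g` is the check with one unit less of budget; then `kont` is called
with the new set of forbidden edges. -/
def singles (g : Fn) (X : ℕ) (kont : ℕ → St → Option St) : ℕ → ℕ → ℕ → St → Option St
  | 0, _, _, _ => none
  | n + 1, z, F, s => match Nat.beq z 0 with
    | true => kont F s
    | false => match g (Nat.lor X (Nat.xor z (clr z))) F s with
      | none => none
      | some s' => singles g X kont n (clr z) (Nat.lor F (Nat.xor z (clr z))) s'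

/-- Loop over the vertices with several edges to the dominating set. -/
def multi (g : ℕ → Fn) (b X F : ℕ) : List ℕ → St → Option St
  | [], s => some s
  | q :: qs, s => match Nat.beq (clr (rest q X)) 0 with
    | true => multi g b X F qs s
    | false => match Nat.beq (Nat.land (rest q X) F) 0 with
      | false => multi g b X F qs s
      | true => match Nat.ble (cnt 7 (rest q X)) b with
        | false => multi g b X F qs s
        | true => match g (Nat.sub b (cnt 7 (rest q X))) (Nat.lor X q) F s with
          | none => none
          | some s' => multi g b X F qs s'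

def node (tab : BT) (g : ℕ → Fn) (b : ℕ) : Fn := fun X F s =>
  next s fun i s' => match ev (tab.get i) X with
    | none => none
    | some k => singles (g (Nat.sub b 1)) X
        (fun F' s'' => multi g b X F' (tab.get i).qs s'') 80 (rest k F) F s'

def nxt (tab : BT) (g : ℕ → Fn) (b : ℕ) : ℕ → Fn := fun j X F s =>
  match Nat.ble b j with
  | true => node tab g b X F s
  | false => g j X F s

def G0 (tab : BT) : ℕ → Fn := fun _ => lev0 tab
def G1 (tab : BT) : ℕ → Fn := fun j X F s =>
  match Nat.ble 1 j with
  | true => lev1 tab X F s
  | false => lev0 tab X F s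
def G2 (tab : BT) : ℕ → Fn := nxt tab (G1 tab) 2
def G3 (tab : BT) : ℕ → Fn := nxt tab (G2 tab) 3
def G4 (tab : BT) : ℕ → Fn := nxt tab (G3 tab) 4
def G5 (tab : BT) : ℕ → Fn := nxt tab (G4 tab) 5
def G6 (tab : BT) : ℕ → Fn := nxt tab (G5 tab) 6

/-! ### Soundness -/

theorem tb_lor (a b i : ℕ) : (Nat.lor a b).testBit i = (a.testBit i || b.testBit i) :=
  Nat.testBit_or a b i

theorem tb_land (a b i : ℕ) : (Nat.land a b).testBit i = (a.testBit i && b.testBit i) :=
  Nat.testBit_and a b i

theorem tb_xor (a b i : ℕ) : (Nat.xor a b).testBit i = (a.testBit i ^^ b.testBit i) :=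
  Nat.testBit_xor a b i

theorem tb_rest (q X i : ℕ) : (rest q X).testBit i = (q.testBit i && !X.testBit i) := by
  unfold rest
  rw [tb_xor, tb_land]
  cases q.testBit i <;> cases X.testBit i <;> rfl

/-- clearing the lowest bit -/
theorem clr_spec (z : ℕ) (hz : z ≠ 0) :
    ∃ e, z.testBit e = true ∧ ∀ i, (clr z).testBit i = (z.testBit i && decide (i ≠ e)) := by
  induction z using Nat.strong_induction_on with
  | _ z ih =>
    rcases Nat.even_or_odd' z with ⟨k, hk | hk⟩
    · have hk0 : k ≠ 0 := by omega
      obtain ⟨e, h1, h2⟩ := ih k (by omega) hk0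
      refine ⟨e + 1, ?_, ?_⟩
      · rw [hk, Nat.testBit_succ, Nat.mul_div_cancel_left _ (by norm_num)]; exact h1
      · intro i
        have hc : (clr z).testBit i = (z.testBit i && (z - 1).testBit i) := tb_land _ _ _
        rw [hc]
        cases i with
        | zero =>
          have : z.testBit 0 = false := by
            rw [hk]; simp [Nat.testBit_zero]
          rw [this]; rfl
        | succ i =>
          rw [Nat.testBit_succ, Nat.testBit_succ]
          have e1 : z / 2 = k := by omega
          have e2 : (z - 1) / 2 = k - 1 := by omega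
          rw [e1, e2]
          have h3 := h2 i
          have h4 : (clr k).testBit i = (k.testBit i && (k - 1).testBit i) := tb_land _ _ _
          rw [← h4, h3]
          simp
    · refine ⟨0, ?_, ?_⟩
      · rw [hk]; simp [Nat.testBit_zero]
      · intro i
        have hc : (clr z).testBit i = (z.testBit i && (z - 1).testBit i) := tb_land _ _ _
        rw [hc]
        cases i with
        | zero =>
          have : (z - 1).testBit 0 = false := by
            rw [hk]; simp [Nat.testBit_zero]
          rw [this]; simp
        | succ i =>
          rw [Nat.testBit_succ, Nat.testBit_succ]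
          have e1 : z / 2 = k := by omega
          have e2 : (z - 1) / 2 = k := by omega
          rw [e1, e2]; simp

theorem low_spec (z : ℕ) (hz : z ≠ 0) :
    ∃ e, z.testBit e = true ∧ (∀ i, (clr z).testBit i = (z.testBit i && decide (i ≠ e))) ∧
      ∀ i, (Nat.xor z (clr z)).testBit i = decide (i = e) := by
  obtain ⟨e, h1, h2⟩ := clr_spec z hz
  refine ⟨e, h1, h2, ?_⟩
  intro i
  rw [tb_xor, h2]
  by_cases hi : i = e
  · subst hi; simp [h1]
  · simp [hi]

theorem cnt_le (n : ℕ) : ∀ (z : ℕ) (A : Finset ℕ), (∀ i, z.testBit i = true → i ∈ A) →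
    cnt n z ≤ A.card := by
  induction n with
  | zero => intro z A _; exact Nat.zero_le _
  | succ n ih =>
    intro z A hA
    unfold cnt
    split
    · exact Nat.zero_le _
    · rename_i hb
      have hz : z ≠ 0 := Nat.ne_of_beq_eq_false hb
      obtain ⟨e, h1, h2⟩ := clr_spec z hz
      have h3 := ih (clr z) (A.erase e) (by
        intro i hi
        rw [h2, Bool.and_eq_true, decide_eq_true_eq] at hi
        exact Finset.mem_erase.mpr ⟨hi.2, hA i hi.1⟩)
      rw [Finset.card_erase_of_mem (hA e h1)] at h3
      have : 0 < A.card := Finset.card_pos.mpr ⟨e, hA e h1⟩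
      omega

/-- the dominating set survives the deletion of `T` -/
def aliveT (d : DD) (T : Finset ℕ) : Prop :=
  (∀ i ∈ T, d.s1.testBit i = false) ∧ ∀ q ∈ d.qs, ∃ i, q.testBit i = true ∧ i ∉ T

def Good (tab : BT) (T : Finset ℕ) : Prop := ∃ i, aliveT (tab.get i) T

structure Inv (T : Finset ℕ) (X F r : ℕ) : Prop where
  sub : ∀ i, X.testBit i = true → i ∈ T
  avoid : ∀ i ∈ T, F.testBit i = false
  card : (T.filter (fun i => X.testBit i = false)).card ≤ r

theorem evQ_acc {X : ℕ} {qs : List ℕ} {acc k : ℕ} (h : evQ X qs acc = some k) {i : ℕ}
    (hi : acc.testBit i = true) : k.testBit i = true := by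
  induction qs generalizing acc with
  | nil =>
    simp only [evQ, Option.some.injEq] at h
    rw [← h]; exact hi
  | cons q qs ih =>
    unfold evQ at h
    split at h
    · exact absurd h (by simp)
    · split at h
      · exact ih h (by rw [tb_lor, hi, Bool.or_true])
      · exact ih h hi

theorem evQ_ne {X : ℕ} {qs : List ℕ} {acc k : ℕ} (h : evQ X qs acc = some k) :
    ∀ q ∈ qs, rest q X ≠ 0 := by
  induction qs generalizing acc with
  | nil => intro q hq; simp at hq
  | cons q qs ih =>
    unfold evQ at h
    split at h
    · exact absurd h (by simp)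
    · rename_i hb
      have hz : rest q X ≠ 0 := Nat.ne_of_beq_eq_false hb
      intro q' hq'
      rcases List.mem_cons.mp hq' with rfl | hq'
      · exact hz
      · split at h
        · exact ih h q' hq'
        · exact ih h q' hq'

theorem evQ_single {X : ℕ} {qs : List ℕ} {acc k : ℕ} (h : evQ X qs acc = some k) :
    ∀ q ∈ qs, clr (rest q X) = 0 → ∀ i, (rest q X).testBit i = true → k.testBit i = true := by
  induction qs generalizing acc with
  | nil => intro q hq; simp at hq
  | cons q qs ih =>
    unfold evQ at h
    split at h
    · exact absurd h (by simp)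
    · intro q' hq' hc i hi
      rcases List.mem_cons.mp hq' with rfl | hq'
      · have : Nat.beq (clr (rest q' X)) 0 = true := by rw [hc]; rfl
        rw [this] at h
        exact evQ_acc h (by rw [tb_lor, hi, Bool.true_or])
      · split at h
        · exact ih h q' hq' hc i hi
        · exact ih h q' hq' hc i hi

theorem evQ_sub {X : ℕ} {qs : List ℕ} {acc k : ℕ} (h : evQ X qs acc = some k) {i : ℕ}
    (hi : k.testBit i = true) : acc.testBit i = true ∨ X.testBit i = false := by
  induction qs generalizing acc with
  | nil =>
    simp only [evQ, Option.some.injEq] at h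
    left; rw [h]; exact hi
  | cons q qs ih =>
    unfold evQ at h
    split at h
    · exact absurd h (by simp)
    · split at h
      · rcases ih h with h1 | h1
        · rw [tb_lor, Bool.or_eq_true, tb_rest, Bool.and_eq_true] at h1
          rcases h1 with h1 | h1
          · right; simpa using h1.2
          · left; exact h1
        · right; exact h1
      · exact ih h

theorem ev_s1 {d : DD} {X k : ℕ} (h : ev d X = some k) :
    (∀ i, d.s1.testBit i = true → X.testBit i = false ∧ k.testBit i = true) ∧
    evQ X d.qs d.s1 = some k := by
  unfold ev at h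
  split at h
  · rename_i hb
    have h0 : Nat.land d.s1 X = 0 := Nat.eq_of_beq_eq_true hb
    refine ⟨fun i hi => ⟨?_, evQ_acc h hi⟩, h⟩
    have : (Nat.land d.s1 X).testBit i = false := by rw [h0, Nat.zero_testBit]
    rw [tb_land, hi, Bool.true_and] at this
    exact this
  · exact absurd h (by simp)

theorem ev_sub {d : DD} {X k : ℕ} (h : ev d X = some k) {i : ℕ} (hi : k.testBit i = true) :
    X.testBit i = false := by
  obtain ⟨h1, h2⟩ := ev_s1 h
  rcases evQ_sub h2 hi with h3 | h3
  · exact (h1 i h3).1
  · exact h3

/-- If `T ⊇ X` destroys `d` then `T` meets `k` or contains a mask with at least two new edges. -/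
theorem spoil {d : DD} {X k : ℕ} {T : Finset ℕ} (ha : ev d X = some k) (hT : ¬ aliveT d T) :
    (∃ i ∈ T, k.testBit i = true) ∨
    (∃ q ∈ d.qs, (∀ i, q.testBit i = true → i ∈ T) ∧ clr (rest q X) ≠ 0) := by
  obtain ⟨h1, h2⟩ := ev_s1 ha
  by_cases h3 : ∃ i ∈ T, d.s1.testBit i = true
  · obtain ⟨i, hi, hb⟩ := h3
    exact Or.inl ⟨i, hi, (h1 i hb).2⟩
  · have h4 : ∃ q ∈ d.qs, ∀ i, q.testBit i = true → i ∈ T := by
      by_contra hcon
      push Not at hcon
      apply hT
      refine ⟨fun i hi => ?_, fun q hq => ?_⟩
      · by_contra hb
        exact h3 ⟨i, hi, by simpa using hb⟩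
      · obtain ⟨i, h5, h6⟩ := hcon q hq
        exact ⟨i, h5, h6⟩
    obtain ⟨q, hq, hqT⟩ := h4
    by_cases hs : clr (rest q X) = 0
    · left
      have hne := evQ_ne h2 q hq
      obtain ⟨i, hi⟩ := Nat.exists_testBit_of_ne_zero hne
      refine ⟨i, hqT i ?_, evQ_single h2 q hq hs i hi⟩
      rw [tb_rest, Bool.and_eq_true] at hi
      exact hi.1
    · exact Or.inr ⟨q, hq, hqT, hs⟩

/-- `X` itself does not destroy `d`. -/
theorem alive_self {d : DD} {X k : ℕ} {T : Finset ℕ} (ha : ev d X = some k)
    (hT : ∀ i ∈ T, X.testBit i = true) : aliveT d T := by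
  obtain ⟨h1, h2⟩ := ev_s1 ha
  refine ⟨fun i hi => ?_, fun q hq => ?_⟩
  · by_contra hb
    have := (h1 i (by simpa using hb)).1
    rw [hT i hi] at this
    exact absurd this (by simp)
  · obtain ⟨i, hi⟩ := Nat.exists_testBit_of_ne_zero (evQ_ne h2 q hq)
    rw [tb_rest, Bool.and_eq_true] at hi
    refine ⟨i, hi.1, fun hiT => ?_⟩
    rw [hT i hiT] at hi
    exact absurd hi.2 (by simp)

def Sound (tab : BT) (g : Fn) (r : ℕ) : Prop :=
  ∀ X F s s', g X F s = some s' → ∀ T, Inv T X F r → Good tab T

theorem next_spec {s : St} {f : ℕ → St → Option St} {s' : St} (h : next s f = some s') :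
    ∃ i s1, f i s1 = some s' := by
  unfold next at h
  split at h
  split at h
  · exact ⟨_, _, h⟩
  · split at h
    · exact absurd h (by simp)
    · exact ⟨_, _, h⟩

theorem Inv.empty {T : Finset ℕ} {X F : ℕ} (h : Inv T X F 0) : ∀ i ∈ T, X.testBit i = true := by
  intro i hi
  by_contra hb
  have h1 : i ∈ T.filter (fun i => X.testBit i = false) :=
    Finset.mem_filter.mpr ⟨hi, by simpa using hb⟩
  have := Finset.card_pos.mpr ⟨i, h1⟩
  have := h.card
  omega

theorem lev0_sound (tab : BT) : Sound tab (lev0 tab) 0 := by
  intro X F s s' h T hT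
  obtain ⟨i, s1, h1⟩ := next_spec h
  try simp only at h1
  split at h1
  · exact absurd h1 (by simp)
  · rename_i k hk
    exact ⟨i, alive_self hk hT.empty⟩

/-- with at most one new edge `e`, a destroyed `d` has `e` in `k` -/
theorem spoil_one {d : DD} {X k e : ℕ} {T : Finset ℕ} (ha : ev d X = some k)
    (hT : ¬ aliveT d T) (he : ∀ i ∈ T, X.testBit i = false → i = e) : k.testBit e = true := by
  rcases spoil ha hT with ⟨i, hi, hk⟩ | ⟨q, hq, hqT, hs⟩
  · rw [← he i hi (ev_sub ha hk)]; exact hk
  · have hz : rest q X ≠ 0 := by
      rintro h0
      rw [h0] at hs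
      exact hs rfl
    obtain ⟨a, h1, h2⟩ := clr_spec _ hz
    obtain ⟨c, hc⟩ := Nat.exists_testBit_of_ne_zero hs
    rw [h2, Bool.and_eq_true, decide_eq_true_eq] at hc
    have hc1 := hc.1
    rw [tb_rest, Bool.and_eq_true] at h1 hc1
    have e1 := he a (hqT a h1.1) (by simpa using h1.2)
    have e2 := he c (hqT c hc1.1) (by simpa using hc1.2)
    exact absurd (e2.trans e1.symm) hc.2

theorem one_sound {tab : BT} {X e : ℕ} {T : Finset ℕ}
    (he : ∀ i ∈ T, X.testBit i = false → i = e) (n : ℕ) {I : ℕ} {s s' : St}
    (h : one tab X n I s = some s') (hI : I.testBit e = true) : Good tab T := by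
  induction n generalizing I s with
  | zero => simp [one] at h
  | succ n ih =>
    unfold one at h
    split at h
    · rename_i hb
      have : I = 0 := Nat.eq_of_beq_eq_true hb
      rw [this, Nat.zero_testBit] at hI
      exact absurd hI (by simp)
    · obtain ⟨i, s1, h1⟩ := next_spec h
      try simp only at h1
      split at h1
      · exact absurd h1 (by simp)
      · rename_i k hk
        by_cases hal : aliveT (tab.get i) T
        · exact ⟨_, hal⟩
        · exact ih h1 (by rw [tb_land, hI, spoil_one hk hal he]; rfl)

theorem lev1_sound (tab : BT) : Sound tab (lev1 tab) 1 := by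
  intro X F s s' h T hT
  obtain ⟨i, s1, h1⟩ := next_spec h
  try simp only at h1
  split at h1
  · exact absurd h1 (by simp)
  · rename_i k hk
    by_cases hal : aliveT (tab.get i) T
    · exact ⟨i, hal⟩
    · -- there is exactly one new element
      have hne : ∃ e ∈ T, X.testBit e = false := by
        by_contra hcon
        push Not at hcon
        exact hal (alive_self hk (fun i hi => by simpa using hcon i hi))
      obtain ⟨e, heT, heX⟩ := hne
      have he : ∀ j ∈ T, X.testBit j = false → j = e := by
        intro j hj hjX
        have h2 := Finset.card_le_one.mp hT.card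
        exact h2 j (Finset.mem_filter.mpr ⟨hj, hjX⟩) e (Finset.mem_filter.mpr ⟨heT, heX⟩)
      refine one_sound he 80 h1 ?_
      rw [tb_rest, spoil_one hk hal he, hT.avoid e heT]; rfl

theorem Inv.mono {T : Finset ℕ} {X F r r' : ℕ} (h : Inv T X F r) (hr : r ≤ r') :
    Inv T X F r' := ⟨h.sub, h.avoid, h.card.trans hr⟩

theorem Inv.add {T : Finset ℕ} {X F r q : ℕ} (h : Inv T X F r)
    (hq : ∀ i, q.testBit i = true → i ∈ T) (n : ℕ) :
    cnt n (rest q X) ≤ r ∧ Inv T (Nat.lor X q) F (r - cnt n (rest q X)) := by
  have h1 : cnt n (rest q X) ≤
      ((T.filter (fun i => X.testBit i = false)).filter (fun i => q.testBit i = true)).card := by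
    apply cnt_le
    intro i hi
    rw [tb_rest, Bool.and_eq_true] at hi
    rw [Finset.mem_filter, Finset.mem_filter]
    exact ⟨⟨hq i hi.1, by simpa using hi.2⟩, hi.1⟩
  have h2 : (T.filter (fun i => (Nat.lor X q).testBit i = false)) =
      (T.filter (fun i => X.testBit i = false)).filter (fun i => ¬ q.testBit i = true) := by
    ext i
    rw [Finset.mem_filter, Finset.mem_filter, Finset.mem_filter, tb_lor, Bool.or_eq_false_iff]
    simp [and_assoc]
  have h3 := Finset.card_filter_add_card_filter_not
    (s := T.filter (fun i => X.testBit i = false)) (fun i => q.testBit i = true)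
  have h4 := h.card
  refine ⟨by omega, ⟨?_, h.avoid, ?_⟩⟩
  · intro i hi
    rw [tb_lor, Bool.or_eq_true] at hi
    rcases hi with hi | hi
    · exact h.sub i hi
    · exact hq i hi
  · rw [h2]
    omega

theorem singles_sound {tab : BT} {g : Fn} {r : ℕ} (hg : Sound tab g r) {X : ℕ}
    {kont : ℕ → St → Option St} (n : ℕ) {z F : ℕ} {s s' : St}
    (hz : ∀ i, z.testBit i = true → X.testBit i = false)
    (h : singles g X kont n z F s = some s') {T : Finset ℕ} (hT : Inv T X F (r + 1)) :
    Good tab T ∨ ∃ F' s1, kont F' s1 = some s' ∧ Inv T X F' (r + 1) ∧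
      ∀ i ∈ T, z.testBit i = false := by
  induction n generalizing z F s with
  | zero => simp [singles] at h
  | succ n ih =>
    unfold singles at h
    split at h
    · rename_i hb
      have : z = 0 := Nat.eq_of_beq_eq_true hb
      subst this
      exact Or.inr ⟨F, s, h, hT, fun i _ => Nat.zero_testBit i⟩
    · rename_i hb
      have hz0 : z ≠ 0 := Nat.ne_of_beq_eq_false hb
      obtain ⟨e, h1, h2, h3⟩ := low_spec z hz0
      split at h
      · exact absurd h (by simp)
      · rename_i s1 hs1
        by_cases heT : e ∈ T
        · left
          have hq : ∀ i, (Nat.xor z (clr z)).testBit i = true → i ∈ T := by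
            intro i hi
            rw [h3, decide_eq_true_eq] at hi
            rw [hi]; exact heT
          have h4 := (hT.add hq 1).2
          have h5 : cnt 1 (rest (Nat.xor z (clr z)) X) = 1 := by
            have hne : rest (Nat.xor z (clr z)) X ≠ 0 := by
              intro h0
              have : (rest (Nat.xor z (clr z)) X).testBit e = false := by
                rw [h0, Nat.zero_testBit]
              rw [tb_rest, h3, hz e h1] at this
              simp at this
            have hb0 : Nat.beq (rest (Nat.xor z (clr z)) X) 0 = false := by
              cases hbb : Nat.beq (rest (Nat.xor z (clr z)) X) 0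
              · rfl
              · exact absurd (Nat.eq_of_beq_eq_true hbb) hne
            unfold cnt
            rw [hb0]
            rfl
          rw [h5] at h4
          exact hg _ _ _ _ hs1 T h4
        · have hT' : Inv T X (Nat.lor F (Nat.xor z (clr z))) (r + 1) := by
            refine ⟨hT.sub, ?_, hT.card⟩
            intro i hi
            rw [tb_lor, hT.avoid i hi, Bool.false_or, h3, decide_eq_false_iff_not]
            rintro rfl
            exact heT hi
          have hz' : ∀ i, (clr z).testBit i = true → X.testBit i = false := by
            intro i hi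
            rw [h2, Bool.and_eq_true] at hi
            exact hz i hi.1
          rcases ih hz' h hT' with h4 | ⟨F', s2, h4, h5, h6⟩
          · exact Or.inl h4
          · right
            refine ⟨F', s2, h4, h5, ?_⟩
            intro i hi
            have h7 := h6 i hi
            rw [h2] at h7
            by_cases hie : i = e
            · exact absurd (hie ▸ hi) heT
            · simpa [hie] using h7

theorem multi_sound {tab : BT} {g : ℕ → Fn} {b : ℕ} (hg : ∀ j < b, Sound tab (g j) j)
    {X F : ℕ} {qs : List ℕ} {s s' : St} (h : multi g b X F qs s = some s') {T : Finset ℕ}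
    (hT : Inv T X F b) {q : ℕ} (hq : q ∈ qs) (hqT : ∀ i, q.testBit i = true → i ∈ T)
    (hs : clr (rest q X) ≠ 0) : Good tab T := by
  induction qs generalizing s with
  | nil => simp at hq
  | cons q' qs ih =>
    unfold multi at h
    rcases List.mem_cons.mp hq with rfl | hq'
    · split at h
      · rename_i hb
        exact absurd (Nat.eq_of_beq_eq_true hb) hs
      · split at h
        · rename_i hb
          have hne : Nat.land (rest q X) F ≠ 0 := Nat.ne_of_beq_eq_false hb
          obtain ⟨i, hi⟩ := Nat.exists_testBit_of_ne_zero hne
          rw [tb_land, Bool.and_eq_true, tb_rest, Bool.and_eq_true] at hi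
          have := hT.avoid i (hqT i hi.1.1)
          rw [hi.2] at this
          exact absurd this (by simp)
        · obtain ⟨h1, h2⟩ := hT.add hqT 7
          split at h
          · rename_i hb
            rw [Nat.ble_eq.mpr h1] at hb
            exact absurd hb (by simp)
          · split at h
            · exact absurd h (by simp)
            · rename_i s1 hs1
              have hpos : 0 < cnt 7 (rest q X) := by
                have hz : rest q X ≠ 0 := by
                  rintro h0
                  rw [h0] at hs
                  exact hs rfl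
                have hb0 : Nat.beq (rest q X) 0 = false := by
                  cases hbb : Nat.beq (rest q X) 0
                  · rfl
                  · exact absurd (Nat.eq_of_beq_eq_true hbb) hz
                unfold cnt
                rw [hb0]
                exact Nat.succ_pos _
              exact hg (b - cnt 7 (rest q X)) (by omega) _ _ _ _ hs1 T h2
    · split at h
      · exact ih h hq'
      · split at h
        · exact ih h hq'
        · split at h
          · exact ih h hq'
          · split at h
            · exact absurd h (by simp)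
            · exact ih h hq'

theorem node_sound {tab : BT} {g : ℕ → Fn} {b : ℕ} (hb : 0 < b)
    (hg : ∀ j < b, Sound tab (g j) j) : Sound tab (node tab g b) b := by
  intro X F s s' h T hT
  obtain ⟨i, s1, h1⟩ := next_spec h
  try simp only at h1
  split at h1
  · exact absurd h1 (by simp)
  · rename_i k hk
    by_cases hal : aliveT (tab.get i) T
    · exact ⟨i, hal⟩
    · have hz : ∀ j, (rest k F).testBit j = true → X.testBit j = false := by
        intro j hj
        rw [tb_rest, Bool.and_eq_true] at hj
        exact ev_sub hk hj.1
      have hT1 : Inv T X F (b - 1 + 1) := by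
        rw [Nat.sub_add_cancel hb]; exact hT
      rcases singles_sound (hg (b - 1) (by omega)) 80 hz h1 hT1 with h2 | ⟨F', s2, h2, h3, h4⟩
      · exact h2
      · rw [Nat.sub_add_cancel hb] at h3
        rcases spoil hk hal with ⟨j, hj, hkj⟩ | ⟨q, hq, hqT, hs⟩
        · have := h4 j hj
          rw [tb_rest, hkj, hT.avoid j hj] at this
          exact absurd this (by simp)
        · exact multi_sound hg h2 h3 hq hqT hs

theorem nxt_sound {tab : BT} {g : ℕ → Fn} {b : ℕ} (hb : 0 < b)
    (hg : ∀ j < b, Sound tab (g j) j) : ∀ j < b + 1, Sound tab (nxt tab g b j) j := by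
  intro j hj X F s s' h T hT
  unfold nxt at h
  split at h
  · rename_i hbj
    have : b ≤ j := Nat.ble_eq.mp hbj
    have : j = b := by omega
    subst this
    exact node_sound hb hg X F s s' h T hT
  · rename_i hbj
    have : ¬ b ≤ j := by
      intro hle
      rw [Nat.ble_eq.mpr hle] at hbj
      exact absurd hbj (by simp)
    exact hg j (by omega) X F s s' h T hT

theorem G1_sound (tab : BT) : ∀ j < 2, Sound tab (G1 tab j) j := by
  intro j hj X F s s' h T hT
  unfold G1 at h
  split at h
  · rename_i hbj
    have : 1 ≤ j := Nat.ble_eq.mp hbj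
    have : j = 1 := by omega
    subst this
    exact lev1_sound tab X F s s' h T hT
  · rename_i hbj
    have : ¬ 1 ≤ j := by
      intro hle
      rw [Nat.ble_eq.mpr hle] at hbj
      exact absurd hbj (by simp)
    have : j = 0 := by omega
    subst this
    exact lev0_sound tab X F s s' h T hT

theorem G5_sound (tab : BT) : ∀ j < 6, Sound tab (G5 tab j) j :=
  nxt_sound (by norm_num) (nxt_sound (by norm_num) (nxt_sound (by norm_num)
    (nxt_sound (by norm_num) (G1_sound tab))))

theorem G6_sound (tab : BT) : ∀ j < 7, Sound tab (G6 tab j) j :=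
  nxt_sound (by norm_num) (G5_sound tab)

end Pool.Agent.HLead.Bond
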