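import Pool.Agent.HLead.Bond.Graph

/-!
A straight line drawing of the graph.
-/

set_option autoImplicit false
set_option maxRecDepth 100000

namespace Pool.Agent.HLead.Bond

/-- integer coordinates -/
def coord (v : ℕ) : ℤ × ℤ :=
  [((-90 : ℤ), (-109 : ℤ)), (109, -90), (90, 109), (-109, 90), (6, -57), (57, 6), (-6, 57), (-57, -6), (39, -32), (32, 39), (-39, 32), (-32, -39), (18, 2), (-2, 18), (-18, -2), (2, -18), (5, 6), (-6, 5), (-5, -6), (6, -5), (-1, 7), (-7, -1), (1, -7), (7, 1), (-3, 2), (-2, -3), (3, -2), (2, 3)].getD v (0, 0)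

/-- twice the oriented area of a triangle -/
def cr (u v w : ℕ) : ℤ :=
  ((coord v).1 - (coord u).1) * ((coord w).2 - (coord u).2) -
    ((coord v).2 - (coord u).2) * ((coord w).1 - (coord u).1)

def same (a b : ℤ) : Bool :=
  (decide (0 ≤ a) && decide (0 ≤ b) && decide (0 < a + b)) ||
    (decide (a ≤ 0) && decide (b ≤ 0) && decide (a + b < 0))

def sep (u v x y : ℕ) : Bool := same (cr u v x) (cr u v y) || same (cr x y u) (cr x y v)

/-- the edges in both directions -/
def EL2 : List (ℕ × ℕ) := EL ++ EL.map Prod.swap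

theorem EL2_of {u v : Fin 28} (h : gr.Adj u v) : ((u : ℕ), (v : ℕ)) ∈ EL2 := by
  rcases h with h | h
  · exact List.mem_append_left _ h
  · exact List.mem_append_right _ (List.mem_map.mpr ⟨_, h, rfl⟩)

theorem noncol : (EL2.all fun e => (List.range 28).all fun w =>
    decide (w = e.1) || decide (w = e.2) || !decide (cr e.1 e.2 w = 0)) = true := by
  decide +kernel

theorem allsep : (EL2.all fun e => EL2.all fun f =>
    decide (e = f) || decide (e = Prod.swap f) || sep e.1 e.2 f.1 f.2) = true := by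
  decide +kernel

theorem coord_inj : ∀ u v : Fin 28, coord u = coord v → u = v := by decide +kernel

/-- the position of a vertex -/
noncomputable def pt (v : Fin 28) : ℝ × ℝ := (((coord v).1 : ℝ), ((coord v).2 : ℝ))

theorem pt_inj : Function.Injective pt := by
  intro u v h
  apply coord_inj
  unfold pt at h
  rw [Prod.mk.injEq] at h
  exact Prod.ext (by exact_mod_cast h.1) (by exact_mod_cast h.2)

/-- the segment -/
noncomputable def seg (u v : Fin 28) : Path (pt u) (pt v) where
  toFun t := ((1 - (t : ℝ)) * (pt u).1 + (t : ℝ) * (pt v).1,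
    (1 - (t : ℝ)) * (pt u).2 + (t : ℝ) * (pt v).2)
  continuous_toFun := by fun_prop
  source' := by simp
  target' := by simp

theorem seg_apply (u v : Fin 28) (t : unitInterval) : seg u v t =
    ((1 - (t : ℝ)) * (pt u).1 + (t : ℝ) * (pt v).1,
      (1 - (t : ℝ)) * (pt u).2 + (t : ℝ) * (pt v).2) := rfl

theorem seg_inj {u v : Fin 28} (h : u ≠ v) : Function.Injective (⇑(seg u v)) := by
  intro s t hst
  rw [seg_apply, seg_apply, Prod.mk.injEq] at hst
  by_contra hne
  have hne' : (s : ℝ) - t ≠ 0 := fun h0 => hne (Subtype.ext (by linarith))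
  apply h
  apply pt_inj
  apply Prod.ext
  · have : ((s : ℝ) - t) * ((pt v).1 - (pt u).1) = 0 := by linarith [hst.1]
    rcases mul_eq_zero.mp this with h1 | h1
    · exact absurd h1 hne'
    · linarith
  · have : ((s : ℝ) - t) * ((pt v).2 - (pt u).2) = 0 := by linarith [hst.2]
    rcases mul_eq_zero.mp this with h1 | h1
    · exact absurd h1 hne'
    · linarith

/-- real version of `cr` for an arbitrary third point -/
noncomputable def crR (u v : Fin 28) (p : ℝ × ℝ) : ℝ :=
  ((pt v).1 - (pt u).1) * (p.2 - (pt u).2) - ((pt v).2 - (pt u).2) * (p.1 - (pt u).1)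

theorem crR_pt (u v w : Fin 28) : crR u v (pt w) = (cr u v w : ℝ) := by
  unfold crR cr pt
  push_cast
  ring

theorem crR_seg_self (u v : Fin 28) (t : unitInterval) : crR u v (seg u v t) = 0 := by
  rw [seg_apply]
  unfold crR
  ring

theorem crR_seg (u v x y : Fin 28) (t : unitInterval) :
    crR u v (seg x y t) = (1 - (t : ℝ)) * (cr u v x : ℝ) + (t : ℝ) * (cr u v y : ℝ) := by
  rw [← crR_pt, ← crR_pt, seg_apply]
  unfold crR
  ring

theorem unit_pos {t : unitInterval} (h : t ≠ 0) : 0 < (t : ℝ) :=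
  lt_of_le_of_ne t.2.1 (fun h0 => h (Subtype.ext h0.symm))

theorem unit_lt {t : unitInterval} (h : t ≠ 1) : (t : ℝ) < 1 :=
  lt_of_le_of_ne t.2.2 (fun h0 => h (Subtype.ext h0))

theorem same_ne {a b : ℤ} (h : same a b = true) {t : unitInterval} (h0 : t ≠ 0) (h1 : t ≠ 1) :
    (1 - (t : ℝ)) * (a : ℝ) + (t : ℝ) * (b : ℝ) ≠ 0 := by
  have ht0 := unit_pos h0
  have ht1 := unit_lt h1
  unfold same at h
  simp only [Bool.or_eq_true, Bool.and_eq_true, decide_eq_true_eq] at h
  rcases h with ⟨⟨ha, hb⟩, hab⟩ | ⟨⟨ha, hb⟩, hab⟩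
  · have ha' : (0 : ℝ) ≤ a := by exact_mod_cast ha
    have hb' : (0 : ℝ) ≤ b := by exact_mod_cast hb
    have hab' : (0 : ℝ) < a + b := by exact_mod_cast hab
    rcases lt_or_eq_of_le ha' with h2 | h2
    · have := mul_pos (sub_pos.mpr ht1) h2
      have := mul_nonneg ht0.le hb'
      linarith
    · rw [← h2] at hab' ⊢
      rw [zero_add] at hab'
      have := mul_pos ht0 hab'
      linarith
  · have ha' : (a : ℝ) ≤ 0 := by exact_mod_cast ha
    have hb' : (b : ℝ) ≤ 0 := by exact_mod_cast hb
    have hab' : (a : ℝ) + b < 0 := by exact_mod_cast hab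
    rcases lt_or_eq_of_le ha' with h2 | h2
    · have := mul_neg_of_pos_of_neg (sub_pos.mpr ht1) h2
      have := mul_nonpos_of_nonneg_of_nonpos ht0.le hb'
      linarith
    · rw [h2] at hab' ⊢
      rw [zero_add] at hab'
      have := mul_neg_of_pos_of_neg ht0 hab'
      linarith

theorem no_vertex {u v : Fin 28} (h : gr.Adj u v) {t : unitInterval} (h0 : t ≠ 0) (h1 : t ≠ 1)
    (w : Fin 28) : seg u v t ≠ pt w := by
  intro hw
  have hne : u ≠ v := h.ne
  have h2 := List.all_eq_true.mp noncol _ (EL2_of h)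
  have h3 := List.all_eq_true.mp h2 w (List.mem_range.mpr w.2)
  simp only [Bool.or_eq_true, decide_eq_true_eq, Bool.not_eq_true', decide_eq_false_iff_not] at h3
  rcases h3 with (h3 | h3) | h3
  · have : w = u := Fin.ext h3
    subst this
    exact h0 (seg_inj hne (hw.trans (seg w v).source.symm))
  · have : w = v := Fin.ext h3
    subst this
    exact h1 (seg_inj hne (hw.trans (seg u w).target.symm))
  · apply h3
    have h4 := crR_seg_self u v t
    rw [hw, crR_pt] at h4
    exact_mod_cast h4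

theorem no_cross {u v x y : Fin 28} (h : gr.Adj u v) (h' : gr.Adj x y) (hne : s(u, v) ≠ s(x, y))
    {a b : unitInterval} (ha0 : a ≠ 0) (ha1 : a ≠ 1) (hb0 : b ≠ 0) (hb1 : b ≠ 1) :
    seg u v a ≠ seg x y b := by
  intro hab
  have h2 := List.all_eq_true.mp allsep _ (EL2_of h)
  have h3 := List.all_eq_true.mp h2 _ (EL2_of h')
  simp only [Bool.or_eq_true, decide_eq_true_eq] at h3
  rcases h3 with (h3 | h3) | h3
  · rw [Prod.mk.injEq] at h3
    apply hne
    rw [Fin.ext h3.1, Fin.ext h3.2]
  · rw [Prod.swap_prod_mk, Prod.mk.injEq] at h3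
    apply hne
    rw [Fin.ext h3.1, Fin.ext h3.2, Sym2.eq_swap]
  · unfold sep at h3
    rw [Bool.or_eq_true] at h3
    rcases h3 with h3 | h3
    · have h4 := crR_seg u v x y b
      rw [← hab, crR_seg_self] at h4
      exact same_ne h3 hb0 hb1 h4.symm
    · have h4 := crR_seg x y u v a
      rw [hab, crR_seg_self] at h4
      exact same_ne h3 ha0 ha1 h4.symm

end Pool.Agent.HLead.Bond
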