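import Pool.Agent.HLead.Bond.Data

/-!
A planar graph with 28 vertices and 76 edges: the table of dominating sets is correct, and
lower bounds for the domination number.
-/

set_option autoImplicit false
set_option maxRecDepth 100000

namespace Pool.Agent.HLead.Bond

/-- The graph. -/
def gr : SimpleGraph (Fin 28) where
  Adj u v := ((u : ℕ), (v : ℕ)) ∈ EL ∨ ((v : ℕ), (u : ℕ)) ∈ EL
  symm := ⟨fun _ _ h => h.symm⟩
  loopless := ⟨by decide +kernel⟩

instance : DecidableRel gr.Adj := fun u v =>
  inferInstanceAs (Decidable (((u : ℕ), (v : ℕ)) ∈ EL ∨ ((v : ℕ), (u : ℕ)) ∈ EL))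

/-- for each vertex the mask of its edges -/
def incL : List ℕ :=
  [31, 481, 7712,
   57858, 458820, 3671168,
   29370368, 234897416, 805896448,
   3226472448, 12926877696, 51606847504,
   2131648053248, 33060527538176, 529990508609536,
   3976006381862912, 31529870316011520, 252280743969947648,
   2018316320503758848, 16142027514158514176, 55380782209961033728,
   221721498329680969728, 888328271099389280256, 3546395556469427666944,
   14259477284165559255040, 24055707193621862154240, 58448508597548714295296,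
   49621759572677203329024]

def inc (v : ℕ) : ℕ := incL.getD v 0

def el (i : ℕ) : ℕ × ℕ := EL.getD i (0, 0)

theorem inc_lt : ∀ v < 28, inc v < 2 ^ 76 := by decide +kernel

theorem inc_el : ∀ v < 28, ∀ i < 76, (inc v).testBit i = true → (el i).1 = v ∨ (el i).2 = v := by
  decide +kernel

theorem el_mem : ∀ i < 76, el i ∈ EL := by decide +kernel

theorem inc_bit {v i : ℕ} (hv : v < 28) (h : (inc v).testBit i = true) :
    i < 76 ∧ ((el i).1 = v ∨ (el i).2 = v) := by
  have hi : i < 76 := by
    by_contra hi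
    have h1 : inc v < 2 ^ i := (inc_lt v hv).trans_le (Nat.pow_le_pow_right (by norm_num) (by omega))
    rw [Nat.testBit_lt_two_pow h1] at h
    exact absurd h (by simp)
  exact ⟨hi, inc_el v hv i hi h⟩

def es (i : ℕ) : Sym2 (Fin 28) := s(Fin.ofNat 28 (el i).1, Fin.ofNat 28 (el i).2)

theorem el_inj : ∀ i < 76, ∀ j < 76, es i = es j → i = j := by decide +kernel

/-! ### The table -/

def W : ℕ → ℕ → ℕ
  | 0, _ => 0
  | n + 1, D => match Nat.testBit D n with
    | true => Nat.lor (W n D) (inc n)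
    | false => W n D

theorem W_spec {n D e : ℕ} (h : (W n D).testBit e = true) :
    ∃ u < n, D.testBit u = true ∧ (inc u).testBit e = true := by
  induction n with
  | zero => simp [W] at h
  | succ n ih =>
    unfold W at h
    split at h
    · rename_i hb
      rw [tb_lor, Bool.or_eq_true] at h
      rcases h with h | h
      · obtain ⟨u, h1, h2⟩ := ih h
        exact ⟨u, by omega, h2⟩
      · exact ⟨n, by omega, hb, h⟩
    · obtain ⟨u, h1, h2⟩ := ih h
      exact ⟨u, by omega, h2⟩

def pop : ℕ → ℕ → ℕ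
  | 0, _ => 0
  | n + 1, m => match Nat.testBit m n with
    | true => Nat.succ (pop n m)
    | false => pop n m

theorem pop_eq (n m : ℕ) :
    pop n m = ((Finset.range n).filter (fun i => m.testBit i = true)).card := by
  induction n with
  | zero => rfl
  | succ n ih =>
    unfold pop
    rw [Finset.range_add_one, Finset.filter_insert]
    split
    · rename_i h
      rw [if_pos h, Finset.card_insert_of_notMem (by simp), ih]
    · rename_i h
      rw [if_neg (by simp [h]), ih]

def memQ (K : ℕ) : List ℕ → Bool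
  | [] => false
  | q :: qs => match Nat.beq K q with
    | true => true
    | false => memQ K qs

theorem memQ_spec {K : ℕ} {qs : List ℕ} (h : memQ K qs = true) : K ∈ qs := by
  induction qs with
  | nil => simp [memQ] at h
  | cons q qs ih =>
    unfold memQ at h
    split at h
    · rename_i hb
      rw [Nat.eq_of_beq_eq_true hb]; exact List.mem_cons_self
    · exact List.mem_cons_of_mem _ (ih h)

def okV (d : DD) (w : ℕ) (v : ℕ) : Bool :=
  match Nat.testBit d.D v with
  | true => true
  | false => match Nat.beq (Nat.land (inc v) w) 0 with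
    | true => false
    | false => match Nat.beq (Nat.land (Nat.land (inc v) w) d.s1) (Nat.land (inc v) w) with
      | true => true
      | false => memQ (Nat.land (inc v) w) d.qs

theorem okV_spec {d : DD} {w v : ℕ} (h : okV d w v = true) {T : Finset ℕ} (ha : aliveT d T)
    (hv : d.D.testBit v = false) :
    ∃ e, e ∉ T ∧ (inc v).testBit e = true ∧ w.testBit e = true := by
  unfold okV at h
  rw [hv] at h
  simp only at h
  split at h
  · exact absurd h (by simp)
  · rename_i hb
    have hne : Nat.land (inc v) w ≠ 0 := Nat.ne_of_beq_eq_false hb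
    split at h
    · rename_i hc
      have hc' : Nat.land (Nat.land (inc v) w) d.s1 = Nat.land (inc v) w :=
        Nat.eq_of_beq_eq_true hc
      obtain ⟨e, he⟩ := Nat.exists_testBit_of_ne_zero hne
      have he2 := he
      rw [← hc', tb_land, Bool.and_eq_true] at he2
      rw [tb_land, Bool.and_eq_true] at he
      refine ⟨e, fun heT => ?_, he.1, he.2⟩
      rw [ha.1 e heT] at he2
      exact absurd he2.2 (by simp)
    · obtain ⟨e, h1, h2⟩ := ha.2 _ (memQ_spec h)
      rw [tb_land, Bool.and_eq_true] at h1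
      exact ⟨e, h2, h1.1, h1.2⟩

def allV (d : DD) (w : ℕ) : ℕ → Bool
  | 0 => true
  | n + 1 => match okV d w n with
    | true => allV d w n
    | false => false

theorem allV_spec {d : DD} {w n : ℕ} (h : allV d w n = true) : ∀ v < n, okV d w v = true := by
  induction n with
  | zero => intro v hv; omega
  | succ n ih =>
    unfold allV at h
    split at h
    · rename_i hb
      intro v hv
      rcases Nat.lt_succ_iff_lt_or_eq.mp hv with h1 | h1
      · exact ih h v h1
      · rw [h1]; exact hb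
    · exact absurd h (by simp)

def okD (d : DD) : Bool := Nat.ble (pop 28 d.D) 6 && allV d (W 28 d.D) 28

theorem tab_ok : tab.all okD = true := by decide +kernel

/-- A dominating set that survives. -/
theorem good_dom {T : Finset ℕ} (h : Good tab T) :
    ∃ D : Finset (Fin 28), D.card ≤ 6 ∧ ∀ v, v ∈ D ∨ ∃ u ∈ D, ∃ e < 76, e ∉ T ∧
      gr.Adj u v ∧ es e = s(u, v) := by
  obtain ⟨i, ha⟩ := h
  have hok := BT.all_get okD tab tab_ok i
  unfold okD at hok
  rw [Bool.and_eq_true] at hok
  obtain ⟨h1, h2⟩ := hok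
  refine ⟨Finset.univ.filter (fun v : Fin 28 => (tab.get i).D.testBit v = true), ?_, ?_⟩
  · have h3 : pop 28 (tab.get i).D ≤ 6 := Nat.ble_eq.mp h1
    rw [pop_eq] at h3
    refine le_trans ?_ h3
    apply Finset.card_le_card_of_injOn (fun v : Fin 28 => (v : ℕ))
    · intro v hv
      simp only [Finset.coe_filter, Finset.mem_univ, true_and, Set.mem_setOf_eq] at hv
      simp only [Finset.coe_filter, Finset.mem_range, Set.mem_setOf_eq]
      exact ⟨v.2, hv⟩
    · intro a _ b _ hab
      exact Fin.ext hab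
  · intro v
    by_cases hv : (tab.get i).D.testBit v = true
    · left; exact Finset.mem_filter.mpr ⟨Finset.mem_univ _, hv⟩
    · right
      have hv' : (tab.get i).D.testBit v = false := by simpa using hv
      obtain ⟨e, he, he1, he2⟩ := okV_spec (allV_spec h2 v v.2) ha hv'
      obtain ⟨u, hu, hu1, hu2⟩ := W_spec he2
      obtain ⟨he76, hev⟩ := inc_bit v.2 he1
      obtain ⟨-, heu⟩ := inc_bit hu hu2
      have huv : u ≠ (v : ℕ) := by
        rintro rfl
        exact hv hu1
      have hmem := el_mem e he76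
      refine ⟨⟨u, hu⟩, Finset.mem_filter.mpr ⟨Finset.mem_univ _, hu1⟩, e, he76, he, ?_, ?_⟩
      · show ((u, (v : ℕ)) ∈ EL ∨ ((v : ℕ), u) ∈ EL)
        rcases heu with h5 | h5 <;> rcases hev with h6 | h6
        · exact absurd (h5.symm.trans h6) huv
        · left; rw [← h5, ← h6]; exact hmem
        · right; rw [← h5, ← h6]; exact hmem
        · exact absurd (h5.symm.trans h6) huv
      · unfold es
        have hof : ∀ (a : ℕ) (b : Fin 28), a = (b : ℕ) → Fin.ofNat 28 a = b := by
          intro a b hab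
          apply Fin.ext
          simp [Fin.ofNat, hab, Nat.mod_eq_of_lt b.2]
        rcases heu with h5 | h5 <;> rcases hev with h6 | h6
        · exact absurd (h5.symm.trans h6) huv
        · rw [hof _ ⟨u, hu⟩ h5, hof _ v h6]
        · rw [hof _ ⟨u, hu⟩ h5, hof _ v h6, Sym2.eq_swap]
        · exact absurd (h5.symm.trans h6) huv

/-! ### Covering -/

/-- `unc` cannot be covered by `k` sets -/
def cov (cn : ℕ → ℕ) (nl : ℕ → List ℕ) : ℕ → ℕ → Bool
  | 0, unc => match Nat.beq unc 0 with
    | true => false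
    | false => true
  | k + 1, unc => match Nat.testBit unc (Nat.log2 unc) with
    | false => false
    | true => (nl (Nat.log2 unc)).all fun u => cov cn nl k (rest unc (cn u))

theorem cov_sound {cn : ℕ → ℕ} {nl : ℕ → List ℕ}
    (hnl : ∀ u < 28, ∀ x, (cn u).testBit x = true → u ∈ nl x) (k : ℕ) :
    ∀ unc, cov cn nl k unc = true → ∀ D : Finset (Fin 28), D.card ≤ k →
      (∀ x, unc.testBit x = true → ∃ u ∈ D, (cn u).testBit x = true) → False := by
  induction k with
  | zero =>
    intro unc h D hD hc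
    have hD0 : D = ∅ := Finset.card_eq_zero.mp (Nat.le_zero.mp hD)
    subst hD0
    unfold cov at h
    split at h
    · exact absurd h (by simp)
    · rename_i hb
      obtain ⟨x, hx⟩ := Nat.exists_testBit_of_ne_zero (Nat.ne_of_beq_eq_false hb)
      obtain ⟨u, hu, _⟩ := hc x hx
      exact absurd hu (Finset.notMem_empty u)
  | succ k ih =>
    intro unc h D hD hc
    unfold cov at h
    split at h
    · exact absurd h (by simp)
    · rename_i hb
      obtain ⟨u, hu, hux⟩ := hc _ hb
      have h1 := List.all_eq_true.mp h u (hnl u u.2 _ hux)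
      refine ih _ h1 (D.erase u) ?_ ?_
      · rw [Finset.card_erase_of_mem hu]; omega
      · intro x hx
        rw [tb_rest, Bool.and_eq_true] at hx
        obtain ⟨w, hw, hwx⟩ := hc x hx.1
        refine ⟨w, Finset.mem_erase.mpr ⟨?_, hw⟩, hwx⟩
        rintro rfl
        rw [hwx] at hx
        exact absurd hx.2 (by simp)

def cn1 (u : ℕ) : ℕ := [2203, 311, 622, 1229, 35091, 4902, 9804, 19593, 37170, 12900, 25800, 51345, 9024288, 1275456, 2550912, 5036304, 143732736, 20078592, 40157184, 80252928, 152248320, 52838400, 105676800, 210309120, 187826176, 123994112, 247988224, 227606528].getD u 0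

def nl1 (x : ℕ) : List ℕ := [[0, 1, 3, 4, 7, 11], [0, 1, 2, 4, 5, 8], [1, 2, 3, 5, 6, 9], [0, 2, 3, 6, 7, 10], [0, 1, 4, 8, 11, 15], [1, 2, 5, 8, 9, 12], [2, 3, 6, 9, 10, 13], [0, 3, 7, 10, 11, 14], [1, 4, 5, 8, 12, 15], [2, 5, 6, 9, 12, 13], [3, 6, 7, 10, 13, 14], [0, 4, 7, 11, 14, 15], [5, 8, 9, 12, 13, 15, 16, 19, 23], [6, 9, 10, 12, 13, 14, 16, 17, 20], [7, 10, 11, 13, 14, 15, 17, 18, 21], [4, 8, 11, 12, 14, 15, 18, 19, 22], [12, 13, 16, 20, 23, 27], [13, 14, 17, 20, 21, 24], [14, 15, 18, 21, 22, 25], [12, 15, 19, 22, 23, 26], [13, 16, 17, 20, 24, 27], [14, 17, 18, 21, 24, 25], [15, 18, 19, 22, 25, 26], [12, 16, 19, 23, 26, 27], [17, 20, 21, 24, 25, 27], [18, 21, 22, 24, 25, 26], [19, 22, 23, 25, 26, 27], [16, 20, 23, 24, 26, 27]].getD x []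

def cn2 (u : ℕ) : ℕ := [1, 310, 622, 1228, 2066, 4902, 9804, 19592, 37154, 12900, 25800, 51344, 9024288, 1275456, 2550912, 5036288, 143732736, 20078592, 40157184, 80252928, 152248320, 52838400, 105676800, 210309120, 187826176, 123994112, 247988224, 227606528].getD u 0

def nl2 (x : ℕ) : List ℕ := [[0], [1, 2, 4, 5, 8], [1, 2, 3, 5, 6, 9], [2, 3, 6, 7, 10], [1, 4, 11], [1, 2, 5, 8, 9, 12], [2, 3, 6, 9, 10, 13], [3, 7, 10, 11, 14], [1, 5, 8, 12, 15], [2, 5, 6, 9, 12, 13], [3, 6, 7, 10, 13, 14], [4, 7, 11, 14, 15], [5, 8, 9, 12, 13, 15, 16, 19, 23], [6, 9, 10, 12, 13, 14, 16, 17, 20], [7, 10, 11, 13, 14, 15, 17, 18, 21], [8, 11, 12, 14, 15, 18, 19, 22], [12, 13, 16, 20, 23, 27], [13, 14, 17, 20, 21, 24], [14, 15, 18, 21, 22, 25], [12, 15, 19, 22, 23, 26], [13, 16, 17, 20, 24, 27], [14, 17, 18, 21, 24, 25], [15, 18, 19, 22, 25, 26], [12, 16, 19, 23, 26, 27], [17, 20, 21, 24, 25, 27], [18, 21, 22, 24, 25, 26], [19, 22, 23, 25, 26, 27], [16, 20, 23, 24, 26, 27]].getD x []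

theorem nl_ok (cn : ℕ → ℕ) (nl : ℕ → List ℕ) (h1 : ∀ u < 28, cn u < 2 ^ 28)
    (h2 : ∀ u < 28, ∀ x < 28, (cn u).testBit x = true → u ∈ nl x) :
    ∀ u < 28, ∀ x, (cn u).testBit x = true → u ∈ nl x := by
  intro u hu x hx
  have hx28 : x < 28 := by
    by_contra hc
    have h3 : cn u < 2 ^ x := (h1 u hu).trans_le (Nat.pow_le_pow_right (by norm_num) (by omega))
    rw [Nat.testBit_lt_two_pow h3] at hx
    exact absurd hx (by simp)
  exact h2 u hu x hx28 hx

theorem nl1_ok : ∀ u < 28, ∀ x, (cn1 u).testBit x = true → u ∈ nl1 x :=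
  nl_ok _ _ (by decide +kernel) (by decide +kernel)

theorem nl2_ok : ∀ u < 28, ∀ x, (cn2 u).testBit x = true → u ∈ nl2 x :=
  nl_ok _ _ (by decide +kernel) (by decide +kernel)

theorem run1 : cov cn1 nl1 5 268435455 = true := by decide +kernel

theorem run2 : cov cn2 nl2 6 268435455 = true := by decide +kernel

theorem tb_full {x : ℕ} (h : (268435455 : ℕ).testBit x = true) : x < 28 := by
  by_contra hc
  have h3 : 268435455 < 2 ^ x :=
    lt_of_lt_of_le (by norm_num : 268435455 < 2 ^ 28)
      (Nat.pow_le_pow_right (by norm_num) (by omega))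
  rw [Nat.testBit_lt_two_pow h3] at h
  exact absurd h (by simp)

theorem cn1_adj : ∀ u v : Fin 28, (v = u ∨ gr.Adj u v) → (cn1 u).testBit v = true := by
  decide +kernel

/-- No five vertices dominate. -/
theorem dom5 (D : Finset (Fin 28)) (h : ∀ v, v ∈ D ∨ ∃ u ∈ D, gr.Adj u v) : 6 ≤ D.card := by
  by_contra hD
  refine cov_sound nl1_ok 5 _ run1 D (by omega) ?_
  intro x hx
  rcases h ⟨x, tb_full hx⟩ with h1 | ⟨u, hu, huv⟩
  · exact ⟨_, h1, cn1_adj _ _ (Or.inl rfl)⟩
  · exact ⟨u, hu, cn1_adj u _ (Or.inr huv)⟩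

/-- seven edges whose deletion raises the domination number -/
def E0 : Finset (Sym2 (Fin 28)) :=
  {s(0, 1), s(0, 3), s(0, 4), s(0, 7), s(0, 11), s(4, 8), s(4, 15)}

theorem cn2_adj : ∀ u v : Fin 28, (v = u ∨ (gr.Adj u v ∧ s(u, v) ∉ E0)) →
    (cn2 u).testBit v = true := by
  decide +kernel

theorem dom7 (D : Finset (Fin 28))
    (h : ∀ v, v ∈ D ∨ ∃ u ∈ D, (gr.deleteEdges (↑E0 : Set (Sym2 (Fin 28)))).Adj u v) :
    7 ≤ D.card := by
  by_contra hD
  refine cov_sound nl2_ok 6 _ run2 D (by omega) ?_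
  intro x hx
  rcases h ⟨x, tb_full hx⟩ with h1 | ⟨u, hu, huv⟩
  · exact ⟨_, h1, cn2_adj _ _ (Or.inl rfl)⟩
  · rw [SimpleGraph.deleteEdges_adj] at huv
    exact ⟨u, hu, cn2_adj u _ (Or.inr ⟨huv.1, fun hc => huv.2 (Finset.mem_coe.mpr hc)⟩)⟩

theorem E0_sub : ∀ e ∈ E0, e ∈ gr.edgeSet := by
  have h : ∀ u v : Fin 28, s(u, v) ∈ E0 → gr.Adj u v := by decide +kernel
  intro e
  induction e using Sym2.ind with
  | _ u v => intro he; exact h u v he

theorem E0_card : E0.card ≤ 8 := by decide +kernel

end Pool.Agent.HLead.Bond
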