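import Pool.Agent.HLead.Bond.Check

/-!
Cutting the check into pieces.
-/

set_option autoImplicit false

namespace Pool.Agent.HLead.Bond

/-- no `T ⊇ X` with at most `j` more elements, disjoint from `F`, destroys the whole table -/
def Fact (tab : BT) (j X F : ℕ) : Prop := ∀ T : Finset ℕ, Inv T X F j → Good tab T

def memL (j X F : ℕ) : List (ℕ × ℕ × ℕ) → Bool
  | [] => false
  | e :: l => match Nat.beq e.1 j && Nat.beq e.2.1 X && Nat.beq e.2.2 F with
    | true => true
    | false => memL j X F l

def orc (l : List (ℕ × ℕ × ℕ)) : ℕ → Fn := fun j X F s =>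
  match memL j X F l with
  | true => some s
  | false => none

theorem memL_spec {j X F : ℕ} {l : List (ℕ × ℕ × ℕ)} (h : memL j X F l = true) :
    (j, X, F) ∈ l := by
  induction l with
  | nil => simp [memL] at h
  | cons e l ih =>
    unfold memL at h
    split at h
    · rename_i hb
      rw [Bool.and_eq_true, Bool.and_eq_true] at hb
      have h1 := Nat.eq_of_beq_eq_true hb.1.1
      have h2 := Nat.eq_of_beq_eq_true hb.1.2
      have h3 := Nat.eq_of_beq_eq_true hb.2
      rw [← h1, ← h2, ← h3]
      exact List.mem_cons_self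
    · exact List.mem_cons_of_mem _ (ih h)

theorem fact_leaf {tab : BT} {j X F : ℕ} {l : List ℕ} (hj : j < 6)
    (h : (G5 tab j X F (.mk 1 l)).isSome = true) : Fact tab j X F := by
  obtain ⟨s', hs'⟩ := Option.isSome_iff_exists.mp h
  intro T hT
  exact G5_sound tab j hj X F _ s' hs' T hT

theorem fact_node {tab : BT} {b X F : ℕ} {l : List (ℕ × ℕ × ℕ)} {c : List ℕ} (hb : 0 < b)
    (hl : ∀ e ∈ l, Fact tab e.1 e.2.1 e.2.2)
    (h : (node tab (orc l) b X F (.mk 1 c)).isSome = true) : Fact tab b X F := by
  obtain ⟨s', hs'⟩ := Option.isSome_iff_exists.mp h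
  intro T hT
  refine node_sound hb ?_ X F _ s' hs' T hT
  intro j _ X F s s' h T hT
  unfold orc at h
  split at h
  · rename_i hm
    exact hl _ (memL_spec hm) T hT
  · exact absurd h (by simp)

end Pool.Agent.HLead.Bond
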